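import Pool.Agent.Lib.MP_b3cacc_pr.Bridge

namespace Pool.Agent.Results.MP_b3cacc_pr.Monotone

open Pool.Agent.Lib.MP_b3cacc_pr

open Classical in
/-- Sequential heat-bath updates at distinct sites of a discrete torus, started from all plus:
at every stage the law of the configuration is stochastically nondecreasing in the inverse
temperature, that is, the expectation of every increasing function of the spins (such as the
spin at a given site) is nondecreasing in the inverse temperature. -/
theorem result (d : ℕ) (L : Fin d → ℕ) [∀ j, NeZero (L j)] (k : ℕ) (x : Fin k → Torus L)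
    (hx : Function.Injective x) (β₁ β₂ : ℝ) (h₂ : 0 < β₂) (h : β₂ < β₁) (j : ℕ)
    (f : (Torus L → ℤˣ) → ℝ)
    (hf : ∀ σ τ : Torus L → ℤˣ, (∀ y, (σ y : ℤ) ≤ (τ y : ℤ)) → f σ ≤ f τ) :
    ∑ τ : Torus L → ℤˣ, law β₂ ((List.ofFn x).take j) τ * f τ ≤
      ∑ τ : Torus L → ℤˣ, law β₁ ((List.ofFn x).take j) τ * f τ := by
  have hl : ((List.ofFn x).take j).Nodup :=
    (List.nodup_ofFn.2 hx).sublist (List.take_sublist _ _)
  have hg : Monotone fun s : Torus L → ℤ => f fun y => if 0 < s y then 1 else -1 :=
    fun s t hst => hf _ _ fun y => by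
      have := hst y
      split_ifs with h1 h2
      · exact le_rfl
      · exact absurd (h1.trans_le this) h2
      · decide
      · exact le_rfl
  have he : ∀ τ : Torus L → ℤˣ, (fun y => if 0 < toInt τ y then (1 : ℤˣ) else -1) = τ :=
    fun τ => funext fun y => by
      rcases Int.units_eq_one_or (τ y) with h1 | h1 <;> simp [toInt, h1]
  have key := F_mono_beta adjM _ adjM_symm hg _ hl h₂.le h.le
  rw [← sum_law, ← sum_law] at key
  simpa only [he] using key

/-- The question as posed: the expected spin at every site. -/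
theorem magnetisation (d : ℕ) (L : Fin d → ℕ) [∀ j, NeZero (L j)] (k : ℕ) (x : Fin k → Torus L)
    (hx : Function.Injective x) (β₁ β₂ : ℝ) (h₂ : 0 < β₂) (h : β₂ < β₁) (j : ℕ) (y : Torus L) :
    stageMagnetisation β₂ x j y ≤ stageMagnetisation β₁ x j y :=
  result d L k x hx β₁ β₂ h₂ h j (fun τ => ((τ y : ℤ) : ℝ)) fun _ _ hst => Int.cast_le.2 (hst y)

end Pool.Agent.Results.MP_b3cacc_pr.Monotone
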